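import Pool.Agent.helper83.OD.Spec

/-!
# Project od: TS (primes congruent to 5 modulo 24 are of the form 3 s^2 + 2 t^2)
-/

set_option autoImplicit false

open Finset

namespace Pool.Agent.OD

theorem TS_ns : ¬ IsSquare (2 : ZMod 3) := by decide

theorem TS_sq (p : ℕ) (hp : p.Prime) (h5 : p % 24 = 5) :
    haveI := Fact.mk hp
    IsSquare (-6 : ZMod p) := by
  have := Fact.mk hp
  have hp2 : p ≠ 2 := by
    rintro rfl
    omega
  have h1 : IsSquare (-1 : ZMod p) := by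
    rw [ZMod.exists_sq_eq_neg_one_iff]
    omega
  have h2 : ¬ IsSquare (2 : ZMod p) := by
    rw [ZMod.exists_sq_eq_two_iff hp2]
    omega
  have h3 : ¬ IsSquare (3 : ZMod p) := by
    have : Fact (Nat.Prime 3) := ⟨Nat.prime_three⟩
    have h4 := ZMod.exists_sq_eq_prime_iff_of_mod_four_eq_one (p := p) (q := 3) (by omega)
      (by norm_num)
    have h5' : ((3 : ℕ) : ZMod p) = 3 := by norm_cast
    rw [h5'] at h4
    rw [h4]
    have h6 : (p : ZMod 3) = 2 := by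
      have h7 : (p : ZMod 3) = ((p % 3 : ℕ) : ZMod 3) := by
        rw [ZMod.natCast_mod]
      rw [h7]
      have h8 : p % 3 = 2 := by omega
      rw [h8]
      rfl
    rw [h6]
    exact TS_ns
  have c2 : quadraticChar (ZMod p) 2 = -1 :=
    quadraticChar_neg_one_iff_not_isSquare.2 h2
  have c3 : quadraticChar (ZMod p) 3 = -1 :=
    quadraticChar_neg_one_iff_not_isSquare.2 h3
  have h60 : (6 : ZMod p) ≠ 0 := by
    intro h
    have h1 : ((6 : ℕ) : ZMod p) = 0 := by exact_mod_cast h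
    rw [ZMod.natCast_eq_zero_iff] at h1
    have h2 := Nat.le_of_dvd (by norm_num) h1
    have h3 : p = 5 := by omega
    rw [h3] at h1
    revert h1
    decide
  have c6 : quadraticChar (ZMod p) 6 = 1 := by
    have e : (6 : ZMod p) = 2 * 3 := by norm_num
    rw [e, map_mul, c2, c3]
    norm_num
  have h6 : IsSquare (6 : ZMod p) := (quadraticChar_one_iff_isSquare h60).1 c6
  have h7 := h1.mul h6
  have e : (-1 : ZMod p) * 6 = -6 := by ring
  rw [e] at h7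
  exact h7

theorem TS_thue (p : ℕ) (hp : p.Prime) (r : ZMod p) (hr : r * r = -6) :
    ∃ X Y k : ℤ, X ^ 2 + 6 * Y ^ 2 = k * p ∧ 1 ≤ k ∧ k ≤ 6 := by
  have := Fact.mk hp
  set m := Nat.sqrt p with hm
  have hm1 : p < (m + 1) * (m + 1) := Nat.lt_succ_sqrt p
  have hm2 : m * m ≤ p := Nat.sqrt_le p
  have hm3 : m * m ≠ p := by
    intro h
    have hm4 : IsSquare p := ⟨m, h.symm⟩
    exact hp.prime.not_isSquare hm4
  let S : Finset (ℕ × ℕ) := Finset.range (m + 1) ×ˢ Finset.range (m + 1)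
  have hS : Fintype.card (ZMod p) < #S := by
    rw [ZMod.card, Finset.card_product, Finset.card_range]
    exact hm1
  obtain ⟨a, ha, b, hb, hab, hf⟩ := Finset.exists_ne_map_eq_of_card_lt_of_maps_to
    (s := S) (t := (Finset.univ : Finset (ZMod p))) (f := fun x => (x.1 : ZMod p) - r * x.2)
    (by rw [Finset.card_univ]; exact hS) (fun _ _ => Finset.mem_coe.2 (Finset.mem_univ _))
  rw [Finset.mem_product, Finset.mem_range, Finset.mem_range] at ha hb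
  obtain ⟨a1, a2⟩ := a
  obtain ⟨b1, b2⟩ := b
  simp only at ha hb hf
  set X : ℤ := (a1 : ℤ) - b1 with hX
  set Y : ℤ := (a2 : ℤ) - b2 with hY
  have hXm : X ^ 2 ≤ m * m := by
    have h1 : -(m : ℤ) ≤ X := by omega
    have h2 : X ≤ m := by omega
    nlinarith
  have hYm : Y ^ 2 ≤ m * m := by
    have h1 : -(m : ℤ) ≤ Y := by omega
    have h2 : Y ≤ m := by omega
    nlinarith
  have hXY : ((X : ℤ) : ZMod p) = r * ((Y : ℤ) : ZMod p) := by
    rw [hX, hY]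
    push_cast
    linear_combination hf
  have hdvd : (p : ℤ) ∣ X ^ 2 + 6 * Y ^ 2 := by
    rw [← ZMod.intCast_zmod_eq_zero_iff_dvd]
    push_cast
    rw [hXY]
    linear_combination ((Y : ℤ) : ZMod p) ^ 2 * hr
  obtain ⟨k, hk⟩ := hdvd
  have hp0 : (0 : ℤ) < p := by exact_mod_cast hp.pos
  have hmp : ((m : ℤ) * m) < p := by
    have : m * m < p := lt_of_le_of_ne hm2 hm3
    exact_mod_cast this
  have hpos : 0 < X ^ 2 + 6 * Y ^ 2 := by
    by_contra hcon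
    have h1 : X ^ 2 = 0 := by nlinarith [sq_nonneg X, sq_nonneg Y]
    have h2 : Y ^ 2 = 0 := by nlinarith [sq_nonneg X, sq_nonneg Y]
    have h3 : X = 0 := by simpa using h1
    have h4 : Y = 0 := by simpa using h2
    apply hab
    have h5 : a1 = b1 := by omega
    have h6 : a2 = b2 := by omega
    rw [h5, h6]
  refine ⟨X, Y, k, by rw [hk]; ring, ?_, ?_⟩
  · by_contra hcon
    have h1 : k ≤ 0 := by omega
    nlinarith
  · by_contra hcon
    have h1 : 7 ≤ k := by omega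
    nlinarith

theorem TS_int (p X Y k : ℤ) (hp : p % 24 = 5) (h : X ^ 2 + 6 * Y ^ 2 = k * p) (h1 : 1 ≤ k)
    (h6 : k ≤ 6) : ∃ s t : ℤ, p = 3 * s ^ 2 + 2 * t ^ 2 := by
  obtain ⟨P, hP⟩ : ∃ P, p = 24 * P + 5 := ⟨p / 24, by omega⟩
  have sq3 : ∀ z : ℤ, z ^ 2 % 3 = 0 ∧ z % 3 = 0 ∨ z ^ 2 % 3 = 1 := by
    intro z
    have h : z % 3 = 0 ∨ z % 3 = 1 ∨ z % 3 = 2 := by omega
    rcases h with h | h | h
    · left; exact ⟨by rw [pow_two, Int.mul_emod, h]; rfl, h⟩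
    · right; rw [pow_two, Int.mul_emod, h]; rfl
    · right; rw [pow_two, Int.mul_emod, h]; rfl
  have sq2 : ∀ z : ℤ, z ^ 2 % 2 = 0 ∧ z % 2 = 0 ∨ z ^ 2 % 2 = 1 := by
    intro z
    have h : z % 2 = 0 ∨ z % 2 = 1 := by omega
    rcases h with h | h
    · left; exact ⟨by rw [pow_two, Int.mul_emod, h]; rfl, h⟩
    · right; rw [pow_two, Int.mul_emod, h]; rfl
  have hcase : k = 1 ∨ k = 2 ∨ k = 3 ∨ k = 4 ∨ k = 5 ∨ k = 6 := by omega
  rcases hcase with rfl | rfl | rfl | rfl | rfl | rfl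
  · exfalso
    rcases sq3 X with ⟨h, _⟩ | h <;> omega
  · rcases sq2 X with ⟨_, h2⟩ | h2
    · obtain ⟨x, rfl⟩ : ∃ x, X = 2 * x := ⟨X / 2, by omega⟩
      exact ⟨Y, x, by linarith⟩
    · exfalso
      omega
  · rcases sq3 X with ⟨_, h2⟩ | h2
    · obtain ⟨x, rfl⟩ : ∃ x, X = 3 * x := ⟨X / 3, by omega⟩
      exact ⟨x, Y, by linarith⟩
    · exfalso
      omega
  · exfalso
    rcases sq3 X with ⟨h, _⟩ | h <;> omega
  · -- k = 5
    have key : ∀ z : ℤ, (X - 2 * z) % 5 = 0 → z ^ 2 = Y ^ 2 → ∃ s t : ℤ, p = 3 * s ^ 2 + 2 * t ^ 2 := by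
      intro z hz hzY
      obtain ⟨u, hu⟩ : ∃ u, X = 5 * u + 2 * z := ⟨(X - 2 * z) / 5, by omega⟩
      refine ⟨u, u + z, ?_⟩
      rw [hu, ← hzY] at h
      have e : 5 * (3 * u ^ 2 + 2 * (u + z) ^ 2) = (5 * u + 2 * z) ^ 2 + 6 * z ^ 2 := by ring
      linarith
    have h5 : (X - 2 * Y) * (X - 2 * (-Y)) % 5 = 0 := by
      have e : (X - 2 * Y) * (X - 2 * (-Y)) = 5 * (p - 2 * Y ^ 2) := by
        linear_combination h
      rw [e]
      omega
    have h5' : (5 : ℤ) ∣ (X - 2 * Y) * (X - 2 * (-Y)) := Int.dvd_of_emod_eq_zero h5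
    rcases (Int.prime_iff_natAbs_prime.2 (by norm_num : Nat.Prime (5 : ℤ).natAbs)).dvd_or_dvd h5'
      with h7 | h7
    · exact key Y (Int.emod_eq_zero_of_dvd h7) rfl
    · exact key (-Y) (Int.emod_eq_zero_of_dvd h7) (by ring)
  · exfalso
    rcases sq3 X with ⟨_, h2⟩ | h2
    · obtain ⟨x, rfl⟩ : ∃ x, X = 3 * x := ⟨X / 3, by omega⟩
      rcases sq2 x with ⟨_, h3⟩ | h3
      · obtain ⟨w, rfl⟩ : ∃ w, x = 2 * w := ⟨x / 2, by omega⟩
        have e : Y ^ 2 = p - 6 * w ^ 2 := by linarith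
        rcases sq3 Y with ⟨h, _⟩ | h <;> omega
      · have e : 9 * x ^ 2 + 6 * Y ^ 2 = 6 * p := by linarith
        omega
    · omega

theorem TS : TS_stmt := by
  intro p hp h5
  have := Fact.mk hp
  obtain ⟨r, hr⟩ := TS_sq p hp h5
  obtain ⟨X, Y, k, h1, h2, h3⟩ := TS_thue p hp r hr.symm
  obtain ⟨s, t, hst⟩ := TS_int p X Y k (by omega) h1 h2 h3
  obtain ⟨a, ha⟩ : ∃ a, a = s.natAbs := ⟨_, rfl⟩
  obtain ⟨b, hb⟩ : ∃ b, b = t.natAbs := ⟨_, rfl⟩
  have hab : p = 3 * a ^ 2 + 2 * b ^ 2 := by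
    have : (p : ℤ) = ((3 * a ^ 2 + 2 * b ^ 2 : ℕ) : ℤ) := by
      push_cast
      rw [ha, hb, Int.natAbs_sq, Int.natAbs_sq]
      exact hst
    exact_mod_cast this
  have ha2 : a % 2 = 1 := by
    by_contra hcon
    obtain ⟨c, rfl⟩ : ∃ c, a = 2 * c := ⟨a / 2, by omega⟩
    have e : 3 * (2 * c) ^ 2 = 12 * c ^ 2 := by ring
    omega
  refine ⟨a, b, ha2, ?_, hab⟩
  by_contra hcon
  obtain ⟨d, rfl⟩ : ∃ d, b = 2 * d := ⟨b / 2, by omega⟩
  obtain ⟨c, rfl⟩ : ∃ c, a = 2 * c + 1 := ⟨a / 2, by omega⟩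
  obtain ⟨e, he⟩ := Nat.even_mul_succ_self c
  have e1 : 3 * (2 * c + 1) ^ 2 = 12 * (c * (c + 1)) + 3 := by ring
  have e2 : 2 * (2 * d) ^ 2 = 8 * d ^ 2 := by ring
  rw [e1, he, e2] at hab
  omega

end Pool.Agent.OD
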